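import Pool.Agent.Helper18.BN4.FreeLem

/-!
# Homomorphisms into free groups: the core of block (4)

Let `P` be a normal subgroup of a group `A` and let `a, b, c ∈ A` satisfy `a b = b a`,
`a c a = c a c`, `b c b = c b c`, with `a²` and `b a⁻¹` in `P`.  Then *every* homomorphism from
`P` to a free group kills the normal closure of `b a⁻¹` in `A` (`kills_closure`).  If `z ∈ P` is
central in `A` modulo this normal closure, then every homomorphism with a nonabelian image kills
`z`, too (`kills_central`).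
-/

namespace Pool.Agent.Helper18.BN4

variable {α : Type} {A : Type*} [Group A]

/-- the identity `a (c g c⁻¹) a⁻¹ = g⁻¹ (c g c⁻¹)` for `g = b a⁻¹` -/
lemma ah_eq {a b c : A} (hac : a * c * a = c * a * c) (hbc : b * c * b = c * b * c)
    (hab : a * b = b * a) :
    a * (c * (b * a⁻¹) * c⁻¹) * a⁻¹ = (b * a⁻¹)⁻¹ * (c * (b * a⁻¹) * c⁻¹) := by
  have h1 : a⁻¹ * c⁻¹ * a⁻¹ = c⁻¹ * a⁻¹ * c⁻¹ := by
    have := congrArg (fun x => x⁻¹) hac
    simp only [mul_inv_rev] at this
    rw [mul_assoc, this, mul_assoc]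
  have h2 : c * b * c⁻¹ = b⁻¹ * c * b := by
    have h3 : c * b = b⁻¹ * (b * c * b) := by group
    rw [h3, hbc]; group
  calc a * (c * (b * a⁻¹) * c⁻¹) * a⁻¹ = a * c * b * (a⁻¹ * c⁻¹ * a⁻¹) := by group
    _ = a * (c * b * c⁻¹) * a⁻¹ * c⁻¹ := by rw [h1]; group
    _ = a * (b⁻¹ * c * b) * a⁻¹ * c⁻¹ := by rw [h2]
    _ = (b * a⁻¹)⁻¹ * (c * (b * a⁻¹) * c⁻¹) := by group

lemma hT_aux {a g h : A} (h3 : a * h = g⁻¹ * h * a) (h2 : a * g = g * a) :
    h * (a * a) * h⁻¹ = g * g * (a * a) := by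
  have h4 : h * a = g * a * h := by
    rw [mul_assoc g a h, h3]; group
  have h5 : h * (a * a) = g * g * (a * a) * h := by
    calc h * (a * a) = (h * a) * a := by group
      _ = g * a * h * a := by rw [h4]
      _ = g * a * (h * a) := by group
      _ = g * a * (g * a * h) := by rw [h4]
      _ = g * (a * g) * (a * h) := by group
      _ = g * (g * a) * (a * h) := by rw [h2]
      _ = g * g * (a * a) * h := by group
  rw [h5, mul_inv_cancel_right]

/-- the identity `h a² h⁻¹ = g² a²` for `g = b a⁻¹`, `h = c g c⁻¹` -/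
lemma hT_eq {a b c : A} (hac : a * c * a = c * a * c) (hbc : b * c * b = c * b * c)
    (hab : a * b = b * a) :
    (c * (b * a⁻¹) * c⁻¹) * (a * a) * (c * (b * a⁻¹) * c⁻¹)⁻¹ =
      (b * a⁻¹) * (b * a⁻¹) * (a * a) := by
  apply hT_aux
  · rw [← ah_eq hac hbc hab, inv_mul_cancel_right]
  · rw [← mul_assoc, hab, mul_assoc, mul_assoc, mul_inv_cancel, inv_mul_cancel]

lemma gg_aux {t g h : A} (h3 : h * t * h⁻¹ = g * g * t) (h4 : g * t = t * g) :
    t * (h * t * h⁻¹) = (h * t * h⁻¹) * t := by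
  rw [h3]
  calc t * (g * g * t) = (t * g) * g * t := by group
    _ = (g * t) * g * t := by rw [h4]
    _ = g * (t * g) * t := by group
    _ = g * (g * t) * t := by rw [h4]
    _ = g * g * t * t := by group

variable {P : Subgroup A}

theorem core_g (hP : P.Normal) {a b c : A} (hac : a * c * a = c * a * c)
    (hbc : b * c * b = c * b * c) (hab : a * b = b * a) (hT : a * a ∈ P) (hg : b * a⁻¹ ∈ P)
    (f : P →* FreeGroup α) : f ⟨b * a⁻¹, hg⟩ = 1 := by
  have hh : c * (b * a⁻¹) * c⁻¹ ∈ P := hP.conj_mem _ hg c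
  have h1 : (⟨_, hh⟩ : P) * ⟨_, hT⟩ * (⟨_, hh⟩ : P)⁻¹ = ⟨_, hg⟩ * ⟨_, hg⟩ * ⟨_, hT⟩ :=
    Subtype.ext (hT_eq hac hbc hab)
  have h2 : (⟨_, hg⟩ : P) * ⟨_, hT⟩ = ⟨_, hT⟩ * ⟨_, hg⟩ := by
    apply Subtype.ext
    change b * a⁻¹ * (a * a) = a * a * (b * a⁻¹)
    rw [← mul_assoc (a * a), mul_assoc a a b, hab, ← mul_assoc a b a, hab]
    group
  have h3 := congrArg f h1
  have h4 := congrArg f h2
  simp only [map_mul, map_inv] at h3 h4
  set t := f ⟨_, hT⟩
  set g := f ⟨_, hg⟩
  set h := f ⟨_, hh⟩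
  have h5 : g * g = 1 := by
    by_cases ht : t = 1
    · rw [ht, mul_one, mul_one, mul_inv_cancel] at h3
      exact h3.symm
    · have h6 := gg_aux h3 h4
      have h7 := comm_of_conj ht h6
      rw [h7, mul_inv_cancel_right] at h3
      calc g * g = g * g * t * t⁻¹ := by group
        _ = 1 := by rw [← h3, mul_inv_cancel]
  have h6 : g ^ (2 : ℤ) = 1 ^ (2 : ℤ) := by rw [one_zpow, zpow_ofNat, pow_two, h5]
  exact zpow_left_injective (by norm_num) h6

/-- every homomorphism from `P` to a free group kills the normal closure of `b a⁻¹` -/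
theorem kills_closure (hP : P.Normal) {a b c : A} (hac : a * c * a = c * a * c)
    (hbc : b * c * b = c * b * c) (hab : a * b = b * a) (hT : a * a ∈ P) (hg : b * a⁻¹ ∈ P)
    (f : P →* FreeGroup α) (x : P) (hx : (x : A) ∈ Subgroup.normalClosure {b * a⁻¹}) :
    f x = 1 := by
  have key : Subgroup.normalClosure {b * a⁻¹} ≤ (f.ker).map P.subtype := by
    rw [Subgroup.normalClosure, Subgroup.closure_le]
    intro y hy
    rw [Group.mem_conjugatesOfSet_iff] at hy
    obtain ⟨z, hz, hy⟩ := hy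
    rw [Set.mem_singleton_iff] at hz
    subst hz
    rw [isConj_iff] at hy
    obtain ⟨w, rfl⟩ := hy
    refine ⟨⟨w * (b * a⁻¹) * w⁻¹, hP.conj_mem _ hg w⟩, ?_, rfl⟩
    have h1 := core_g hP hac hbc hab hT hg (f.comp (MulAut.conjNormal w : MulAut P).toMonoidHom)
    rw [MonoidHom.comp_apply] at h1
    have e : (MulAut.conjNormal w : MulAut P).toMonoidHom ⟨b * a⁻¹, hg⟩ =
        ⟨w * (b * a⁻¹) * w⁻¹, hP.conj_mem _ hg w⟩ := by
      apply Subtype.ext
      exact MulAut.conjNormal_apply w _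
    rw [e] at h1
    exact h1
  obtain ⟨y, hy, hyx⟩ := key hx
  have e : y = x := Subtype.ext hyx
  rw [← e]
  exact hy

/-- every homomorphism from `P` to a free group with a nonabelian image kills the elements which
are central modulo the normal closure of `b a⁻¹` -/
theorem kills_central (hP : P.Normal) {a b c : A} (hac : a * c * a = c * a * c)
    (hbc : b * c * b = c * b * c) (hab : a * b = b * a) (hT : a * a ∈ P) (hg : b * a⁻¹ ∈ P)
    (f : P →* FreeGroup α) (hf : ∃ p q, f p * f q ≠ f q * f p) (z : P)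
    (hz : ∀ p : P, (z : A) * p * (z : A)⁻¹ * (p : A)⁻¹ ∈ Subgroup.normalClosure {b * a⁻¹}) :
    f z = 1 := by
  by_contra h
  obtain ⟨p, q, hpq⟩ := hf
  have key : ∀ p : P, f z * f p = f p * f z := by
    intro p
    have h1 := kills_closure hP hac hbc hab hT hg f (z * p * z⁻¹ * p⁻¹) (hz p)
    simp only [map_mul, map_inv] at h1
    have h2 := eq_of_mul_inv_eq_one h1
    calc f z * f p = f z * f p * (f z)⁻¹ * f z := by group
      _ = f p * f z := by rw [h2]
  exact hpq (comm_trans h (key p).symm (key q))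

end Pool.Agent.Helper18.BN4
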