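import Mathlib

/-!
# Commuting elements of free groups

Commuting elements of a free group are powers of a common element (`comm_root`), commuting is
transitive on the elements different from `1` (`comm_trans`), and an element `x ≠ 1` commutes with
a conjugate `y x y⁻¹` only if it commutes with `y` (`comm_of_conj`).
-/

namespace Pool.Agent.Helper18.BN4

open FreeGroup

variable {α : Type}

/-- generators of a free group which commute are equal -/
lemma of_comm {a b : α} (h : FreeGroup.of a * FreeGroup.of b = FreeGroup.of b * FreeGroup.of a) :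
    a = b := by
  classical
  by_contra hab
  have h1 := congrArg (FreeGroup.lift (fun x : α => if x = a then Equiv.swap (0 : Fin 3) 1
    else Equiv.swap (1 : Fin 3) 2)) h
  rw [_root_.map_mul, _root_.map_mul, FreeGroup.lift_apply_of, FreeGroup.lift_apply_of, if_pos rfl,
    if_neg (Ne.symm hab)] at h1
  revert h1
  decide

/-- commuting elements of a free group are powers of a common element -/
theorem comm_root {x y : FreeGroup α} (h : x * y = y * x) :
    ∃ (r : FreeGroup α) (p q : ℤ), x = r ^ p ∧ y = r ^ q := by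
  classical
  let H : Subgroup (FreeGroup α) := Subgroup.closure {x, y}
  have hx : x ∈ H := Subgroup.subset_closure (by simp)
  have hy : y ∈ H := Subgroup.subset_closure (by simp)
  have hcomm : ∀ u v : H, u * v = v * u := by
    intro u v
    apply Subtype.ext
    have : IsMulCommutative H := Subgroup.isMulCommutative_closure (by
      intro a ha b hb
      rcases ha with rfl | ha <;> rcases hb with rfl | hb
      · rfl
      · rw [Set.mem_singleton_iff.1 hb]; exact h
      · rw [Set.mem_singleton_iff.1 ha]; exact h.symm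
      · rw [Set.mem_singleton_iff.1 ha, Set.mem_singleton_iff.1 hb])
    exact congrArg Subtype.val (this.is_comm.comm u v)
  let e := IsFreeGroup.toFreeGroup H
  have hsub : ∀ a b : IsFreeGroup.Generators H, a = b := by
    intro a b
    apply of_comm
    have h1 := hcomm (e.symm (FreeGroup.of a)) (e.symm (FreeGroup.of b))
    have h2 := congrArg e h1
    simpa using h2
  rcases isEmpty_or_nonempty (IsFreeGroup.Generators H) with h0 | ⟨⟨a⟩⟩
  · have h1 : ∀ z : FreeGroup (IsFreeGroup.Generators H), z = 1 := by
      intro z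
      induction z using FreeGroup.induction_on with
      | C1 => rfl
      | of i => exact (h0.false i).elim
      | inv_of i _ => exact (h0.false i).elim
      | mul a b ha hb => rw [ha, hb, mul_one]
    have h2 : ∀ z : H, z = 1 := by
      intro z
      apply e.injective
      rw [h1 (e z), h1 (e 1)]
    refine ⟨1, 0, 0, ?_, ?_⟩
    · have := congrArg Subtype.val (h2 ⟨x, hx⟩)
      simpa using this
    · have := congrArg Subtype.val (h2 ⟨y, hy⟩)
      simpa using this
  · have h1 : ∀ z : FreeGroup (IsFreeGroup.Generators H), ∃ n : ℤ, z = FreeGroup.of a ^ n := by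
      intro z
      induction z using FreeGroup.induction_on with
      | C1 => exact ⟨0, by simp⟩
      | of i => exact ⟨1, by rw [hsub i a, zpow_one]⟩
      | inv_of i _ => exact ⟨-1, by rw [hsub i a, zpow_neg, zpow_one]⟩
      | mul u v hu hv =>
        obtain ⟨m, hm⟩ := hu
        obtain ⟨n, hn⟩ := hv
        exact ⟨m + n, by rw [hm, hn, zpow_add]⟩
    have h2 : ∀ z : H, ∃ n : ℤ, z = (e.symm (FreeGroup.of a)) ^ n := by
      intro z
      obtain ⟨n, hn⟩ := h1 (e z)
      refine ⟨n, ?_⟩
      apply e.injective
      rw [hn, map_zpow, MulEquiv.apply_symm_apply]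
    obtain ⟨p, hp⟩ := h2 ⟨x, hx⟩
    obtain ⟨q, hq⟩ := h2 ⟨y, hy⟩
    refine ⟨(e.symm (FreeGroup.of a) : H), p, q, ?_, ?_⟩
    · have := congrArg Subtype.val hp
      simpa using this
    · have := congrArg Subtype.val hq
      simpa using this

/-- an element which commutes with a proper power commutes with the base -/
theorem comm_of_zpow {x y : FreeGroup α} {n : ℤ} (hn : n ≠ 0) (h : x * y ^ n = y ^ n * x) :
    x * y = y * x := by
  have h1 : (x * y * x⁻¹) ^ n = y ^ n := by
    rw [conj_zpow, h, mul_inv_cancel_right]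
  have h2 := zpow_left_injective hn h1
  have h3 : x * y * x⁻¹ = y := h2
  calc x * y = x * y * x⁻¹ * x := by rw [inv_mul_cancel_right]
    _ = y * x := by rw [h3]

/-- commuting is transitive on the elements different from `1` of a free group -/
theorem comm_trans {x y z : FreeGroup α} (hy : y ≠ 1) (h1 : x * y = y * x) (h2 : y * z = z * y) :
    x * z = z * x := by
  obtain ⟨r, p, q, hx, hyr⟩ := comm_root h1
  obtain ⟨s, p', q', hys, hz⟩ := comm_root h2
  have hq : q ≠ 0 := by
    rintro rfl
    apply hy
    rw [hyr, zpow_zero]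
  have hp' : p' ≠ 0 := by
    rintro rfl
    apply hy
    rw [hys, zpow_zero]
  have h3 : r * s ^ p' = s ^ p' * r := by
    rw [← hys, hyr]
    exact (Commute.refl r).zpow_right q
  have h4 : Commute r s := comm_of_zpow hp' h3
  rw [hx, hz]
  exact (h4.zpow_left p).zpow_right q'

section length
variable [DecidableEq α]

/-- the cyclically reduced length -/
def tau (x : FreeGroup α) : ℕ := (reduceCyclically x.toWord).length

lemma norm_pow' (x : FreeGroup α) {n : ℕ} (hn : n ≠ 0) :
    (x ^ n).norm = n * tau x + 2 * (reduceCyclically.conjugator x.toWord).length := by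
  unfold FreeGroup.norm tau
  rw [toWord_pow, reduceCyclically.reduce_flatten_replicate isReduced_toWord, if_neg hn]
  simp only [List.length_append, List.length_flatten, List.map_replicate, List.sum_replicate,
    invRev_length, smul_eq_mul]
  ring

lemma tau_le_conj (x y : FreeGroup α) : tau (y * x * y⁻¹) ≤ tau x := by
  by_contra hlt
  push Not at hlt
  set C := 2 * (reduceCyclically.conjugator x.toWord).length + 2 * y.norm with hC
  have h1 := norm_pow' (y * x * y⁻¹) (n := C + 1) (by omega)
  have h2 := norm_pow' x (n := C + 1) (by omega)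
  rw [conj_pow] at h1
  have h3 : (y * x ^ (C + 1) * y⁻¹).norm ≤ y.norm + (x ^ (C + 1)).norm + y.norm := by
    calc (y * x ^ (C + 1) * y⁻¹).norm ≤ (y * x ^ (C + 1)).norm + (y⁻¹).norm :=
          FreeGroup.norm_mul_le _ _
      _ ≤ (y.norm + (x ^ (C + 1)).norm) + (y⁻¹).norm :=
          Nat.add_le_add_right (FreeGroup.norm_mul_le _ _) _
      _ = _ := by rw [FreeGroup.norm_inv_eq]
  rw [h1, h2] at h3
  have h4 : (C + 1) * (tau x + 1) ≤ (C + 1) * tau (y * x * y⁻¹) :=
    Nat.mul_le_mul_left _ hlt
  have h5 : (C + 1) * (tau x + 1) = (C + 1) * tau x + (C + 1) := by ring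
  omega

lemma tau_conj (x y : FreeGroup α) : tau (y * x * y⁻¹) = tau x := by
  refine le_antisymm (tau_le_conj x y) ?_
  have h := tau_le_conj (y * x * y⁻¹) y⁻¹
  have e : y⁻¹ * (y * x * y⁻¹) * y⁻¹⁻¹ = x := by group
  rwa [e] at h

lemma tau_pow (x : FreeGroup α) {n : ℕ} (hn : n ≠ 0) : tau (x ^ n) = n * tau x := by
  have h1 := norm_pow' x (n := 2 * n) (by omega)
  have h2 := norm_pow' (x ^ n) (n := 2) (by omega)
  have h3 := norm_pow' x hn
  have h4 := norm_pow' (x ^ n) (n := 1) (by omega)
  rw [← pow_mul, mul_comm n 2] at h2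
  rw [pow_one] at h4
  rw [h1] at h2
  rw [h3] at h4
  have e : 2 * n * tau x = 2 * (n * tau x) := by ring
  omega

lemma tau_pos {x : FreeGroup α} (hx : x ≠ 1) : 0 < tau x := by
  rw [Nat.pos_iff_ne_zero]
  intro h
  apply hx
  unfold tau at h
  rw [List.length_eq_zero_iff] at h
  have h1 := reduceCyclically.conj_conjugator_reduceCyclically x.toWord
  rw [h, List.append_nil] at h1
  rw [← mk_toWord (x := x), ← h1, ← mul_mk, ← inv_mk, mul_inv_cancel]

lemma tau_inv (x : FreeGroup α) : tau x⁻¹ = tau x := by
  have key : ∀ x : FreeGroup α, tau x⁻¹ ≤ tau x := by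
    intro x
    by_contra hlt
    push Not at hlt
    set C := 2 * (reduceCyclically.conjugator x.toWord).length with hC
    have h1 := norm_pow' x⁻¹ (n := C + 1) (by omega)
    have h2 := norm_pow' x (n := C + 1) (by omega)
    rw [inv_pow, FreeGroup.norm_inv_eq, h2] at h1
    have h4 : (C + 1) * (tau x + 1) ≤ (C + 1) * tau (x⁻¹) :=
      Nat.mul_le_mul_left _ hlt
    have h5 : (C + 1) * (tau x + 1) = (C + 1) * tau x + (C + 1) := by ring
    omega
  refine le_antisymm (key x) ?_
  have := key x⁻¹
  rwa [inv_inv] at this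

lemma tau_one : tau (1 : FreeGroup α) = 0 := by simp [tau]

lemma tau_zpow (x : FreeGroup α) (n : ℤ) : tau (x ^ n) = n.natAbs * tau x := by
  rcases Int.natAbs_eq n with h | h
  · rcases Nat.eq_zero_or_pos n.natAbs with h0 | h0
    · rw [h0, Nat.zero_mul]
      rw [h0] at h
      rw [h]
      simp [tau_one]
    · have e : x ^ n = x ^ n.natAbs := by
        conv_lhs => rw [h]
        rw [zpow_natCast]
      rw [e, tau_pow x (by omega)]
  · rcases Nat.eq_zero_or_pos n.natAbs with h0 | h0
    · rw [h0, Nat.zero_mul]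
      rw [h0] at h
      rw [h]
      simp [tau_one]
    · have e : x ^ n = (x ^ n.natAbs)⁻¹ := by
        conv_lhs => rw [h]
        rw [zpow_neg, zpow_natCast]
      rw [e, tau_inv, tau_pow x (by omega)]

end length

/-- in a free group an element `x ≠ 1` is not conjugate to its inverse -/
theorem conj_ne_inv {x y : FreeGroup α} (hx : x ≠ 1) (h : y * x * y⁻¹ = x⁻¹) : False := by
  have h1 : x * y ^ (2 : ℤ) = y ^ (2 : ℤ) * x := by
    have h2 : y * x = x⁻¹ * y := by
      rw [← h]; group
    have h3 : y * x⁻¹ = x * y := by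
      calc y * x⁻¹ = x * (x⁻¹ * y) * x⁻¹ := by group
        _ = x * (y * x) * x⁻¹ := by rw [h2]
        _ = x * y := by group
    calc x * y ^ (2 : ℤ) = (x * y) * y := by rw [zpow_ofNat, pow_two, mul_assoc]
      _ = y * (x⁻¹ * y) := by rw [← h3, mul_assoc]
      _ = y * (y * x) := by rw [h2]
      _ = y ^ (2 : ℤ) * x := by rw [zpow_ofNat, pow_two, mul_assoc]
  have h2 := comm_of_zpow (by norm_num) h1
  have h3 : x = x⁻¹ := by
    rw [← h, ← h2, mul_inv_cancel_right]
  have h4 : x ^ (2 : ℤ) = 1 ^ (2 : ℤ) := by
    rw [one_zpow, zpow_ofNat, pow_two]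
    nth_rewrite 1 [h3]
    rw [inv_mul_cancel]
  exact hx (zpow_left_injective (by norm_num) h4)

/-- a nontrivial element of a free group commutes with its conjugate by `y` only if it commutes
with `y` -/
theorem comm_of_conj {x y : FreeGroup α} (hx : x ≠ 1)
    (h : x * (y * x * y⁻¹) = (y * x * y⁻¹) * x) : y * x = x * y := by
  classical
  obtain ⟨r, p, q, hp, hq⟩ := comm_root h
  have hr : r ≠ 1 := by
    rintro rfl
    apply hx
    rw [hp, one_zpow]
  have h1 := tau_conj x y
  rw [hq, hp, tau_zpow, tau_zpow] at h1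
  have h2 : q.natAbs = p.natAbs := Nat.eq_of_mul_eq_mul_right (tau_pos hr) h1
  rcases Int.natAbs_eq_natAbs_iff.1 h2 with h3 | h3
  · have h4 : y * x * y⁻¹ = x := by rw [hq, h3, ← hp]
    calc y * x = y * x * y⁻¹ * y := by rw [inv_mul_cancel_right]
      _ = x * y := by rw [h4]
  · exfalso
    apply conj_ne_inv hx (y := y)
    rw [hq, h3, zpow_neg, ← hp]

end Pool.Agent.Helper18.BN4
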